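import Pool.Agent.Helper95.HV.Stmts
import Pool.Agent.Helper40.PN.INLJ
import Pool.Agent.Helper62.PM.BINM
import Pool.Agent.Helper13.PM.HA3

/-!
# Row MIZ: momentum near the nuclei
-/

set_option autoImplicit false

namespace Pool.Agent.Helper60.HV

open MeasureTheory Filter Pool.Agent.Helper95 Pool.Agent.Helper95.PW Pool.Agent.Helper95.LN
  Pool.Agent.Helper95.CF Pool.Agent.Helper95.HV

/-- the potential part of the double commutator -/
theorem miz_id (hPAN : ST_PAN) (hSTB : ST_STB) (hINT : ST_INTM) (n M : ℕ) (X : Fin M → R3)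
    (Z : Fin M → ℝ) (E : ℝ) (g : R3 → ℝ) (hg : ContDiff ℝ (⊤ : ℕ∞) g) (u : Wf n) (hu : Sm u) :
    QM X Z (fun s => Pg g (u s)) - E * PW.sq (fun s => Pg g (u s)) =
      -(∑ s, ∫ x, Pg g (Pg g (u s)) x * (hmM X Z (u s) x - E * u s x)) +
      (kin (fun s => Pg g (u s)) -
        (∑ s, ∫ x, Pg g (Pg g (u s)) x * ∑ k, ∑ i, dv k i (dv k i (u s)) x)) +
      ∑ s, ∫ x, (rep x - ∑ k, pot X Z (x k)) * (Pg g (u s) x ^ 2 + Pg g (Pg g (u s)) x * u s x) := by
  have h := binm_id hPAN hSTB hINT n M X Z E g hg u hu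
  have h1 : Sm (fun s => Pg g (u s)) := (hSTB n g u hg hu).2.1
  have h2 : Sm (fun s => Pg g (Pg g (u s))) := (hSTB n g _ hg h1).2.1
  have key : ∀ s, ∫ x, (rep x - ∑ k, pot X Z (x k)) *
      (Pg g (u s) x ^ 2 + Pg g (Pg g (u s)) x * u s x) =
      (∫ x, rep x * Pg g (u s) x ^ 2) + (∫ x, rep x * (Pg g (Pg g (u s)) x * u s x)) -
      (∫ x : Cf n, (∑ k, pot X Z (x k)) * Pg g (u s) x ^ 2) -
      ∫ x : Cf n, (∑ k, pot X Z (x k)) * (Pg g (Pg g (u s)) x * u s x) := by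
    intro s
    obtain ⟨a1, a2⟩ := h1 s
    obtain ⟨w1, w2⟩ := h2 s
    obtain ⟨u1, u2⟩ := hu s
    obtain ⟨i1, i2, -, -⟩ := hINT n M X Z (Pg g (Pg g (u s))) (u s) w1 w2 u1 u2
    obtain ⟨j1, j2, -, -⟩ := hINT n M X Z (Pg g (u s)) (Pg g (u s)) a1 a2 a1 a2
    have j1' : Integrable (fun x : Cf n => (∑ k, pot X Z (x k)) * Pg g (u s) x ^ 2) := by
      simpa only [pow_two] using j1
    have j2' : Integrable (fun x : Cf n => rep x * Pg g (u s) x ^ 2) := by
      simpa only [pow_two] using j2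
    have e : (fun x : Cf n => (rep x - ∑ k, pot X Z (x k)) *
        (Pg g (u s) x ^ 2 + Pg g (Pg g (u s)) x * u s x)) = fun x =>
        rep x * Pg g (u s) x ^ 2 + rep x * (Pg g (Pg g (u s)) x * u s x) -
        (∑ k, pot X Z (x k)) * Pg g (u s) x ^ 2 -
        (∑ k, pot X Z (x k)) * (Pg g (Pg g (u s)) x * u s x) := by
      funext x
      ring
    rw [e, integral_sub, integral_sub, integral_add j2' i2]
    · exact j2'.add i2
    · exact j1'
    · exact (j2'.add i2).sub j1'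
    · exact i1
  have hP : ∑ s, ∫ x : Cf n, (∑ k, pot X Z (x k)) * (Pg g (Pg g (u s)) x * u s x) =
      ∑ j, Z j * ∑ s, ∫ x : Cf n, (∑ k, 1 / nr (x k - X j)) * (Pg g (Pg g (u s)) x * u s x) := by
    rw [Finset.sum_congr rfl fun s _ => binm_split hINT n M X Z (Pg g (Pg g (u s))) (u s)
      (h2 s).1 (h2 s).2 (hu s).1 (hu s).2, Finset.sum_comm]
    refine Finset.sum_congr rfl fun j _ => ?_
    rw [Finset.mul_sum]
  have hO := binm_one hINT n M X Z (fun s => Pg g (u s)) h1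
  have hO' : one (pot X Z) (fun s => Pg g (u s)) =
    ∑ s, ∫ x : Cf n, (∑ k, pot X Z (x k)) * Pg g (u s) x ^ 2 := rfl
  have hp' : pair (fun s => Pg g (u s)) = ∑ s, ∫ x : Cf n, rep x * Pg g (u s) x ^ 2 := rfl
  rw [Finset.sum_congr rfl fun s _ => key s]
  simp only [Finset.sum_add_distrib, Finset.sum_sub_distrib]
  rw [hP, ← hO', ← hp', hO]
  simp only [mul_add, Finset.sum_add_distrib] at h
  linarith

/-- Hardy: the part near the nuclei -/
theorem miz_near (hINT : ST_INTM) (n M : ℕ) (X : Fin M → R3) (d : ℝ) (u : Wf n) (hu : Sm u) :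
    one (near1 X d) u ≤ M * (n * PW.sq u + 4 * kin u) := by
  have hi : ∀ (j : Fin M) (s), Integrable fun x : Cf n =>
      (∑ k, 1 / nr (x k - X j)) * u s x ^ 2 := by
    intro j s
    have h := (hINT n 1 (fun _ => X j) (fun _ => 1) (u s) (u s) (hu s).1 (hu s).2 (hu s).1
      (hu s).2).1
    have e : (fun x : Cf n => (∑ k, pot (fun _ : Fin 1 => X j) (fun _ => 1) (x k)) *
        (u s x * u s x)) = fun x => (∑ k, 1 / nr (x k - X j)) * u s x ^ 2 := by
      funext x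
      simp [pot, pow_two]
    rwa [e] at h
  have h1 : ∀ j : Fin M, one (fun y => 1 / nr (y - X j)) u ≤ n * PW.sq u + 4 * kin u := by
    intro j
    have hs : ∀ s, ∫ x : Cf n, (∑ k, 1 / nr (x k - X j)) * u s x ^ 2 ≤
        n * (∫ x : Cf n, u s x ^ 2) + 4 * ∑ k, ∑ i, ∫ x : Cf n, dv k i (u s) x ^ 2 := by
      intro s
      obtain ⟨u1, u2⟩ := hu s
      have iu : Integrable (fun x : Cf n => u s x ^ 2) :=
        (u1.continuous.memLp_of_hasCompactSupport u2 (p := 2)).integrable_sq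
      have iH : ∀ k : Fin n, Integrable (fun x : Cf n => u s x ^ 2 / nr (x k - X j) ^ 2) :=
        fun k => (st_HA3 n k (X j) (u s) u1 u2).1
      have iK : ∀ k : Fin n, Integrable (fun x : Cf n => u s x ^ 2 +
          u s x ^ 2 / nr (x k - X j) ^ 2) := fun k => iu.add (iH k)
      have iS : Integrable (fun x : Cf n => ∑ k : Fin n, (u s x ^ 2 +
          u s x ^ 2 / nr (x k - X j) ^ 2)) :=
        integrable_finsetSum _ fun k _ => iK k
      have b1 : ∫ x : Cf n, (∑ k, 1 / nr (x k - X j)) * u s x ^ 2 ≤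
          ∫ x : Cf n, ∑ k : Fin n, (u s x ^ 2 + u s x ^ 2 / nr (x k - X j) ^ 2) := by
        refine integral_mono (hi j s) iS fun x => ?_
        simp only
        rw [Finset.sum_mul]
        refine Finset.sum_le_sum fun k _ => ?_
        have h0 : 0 ≤ 1 / nr (x k - X j) := div_nonneg zero_le_one (INL_nr0 _)
        have h3 : 1 / nr (x k - X j) ≤ 1 + (1 / nr (x k - X j)) ^ 2 := by nlinarith
        have h4 := mul_le_mul_of_nonneg_right h3 (sq_nonneg (u s x))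
        refine h4.trans (le_of_eq ?_)
        rw [one_div, inv_pow, div_eq_mul_inv]
        ring
      refine b1.trans ?_
      rw [integral_finsetSum _ fun k _ => iK k]
      have b2 : ∀ k : Fin n, ∫ x : Cf n, (u s x ^ 2 + u s x ^ 2 / nr (x k - X j) ^ 2) ≤
          (∫ x : Cf n, u s x ^ 2) + 4 * ∑ i, ∫ x : Cf n, dv k i (u s) x ^ 2 := by
        intro k
        rw [integral_add iu (iH k)]
        have h5 := (st_HA3 n k (X j) (u s) u1 u2).2
        rw [integral_finsetSum] at h5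
        · linarith
        · intro i _
          obtain ⟨c1, c2⟩ := INL_dv k i u1 u2
          exact (c1.continuous.memLp_of_hasCompactSupport c2 (p := 2)).integrable_sq
      refine (Finset.sum_le_sum fun k _ => b2 k).trans (le_of_eq ?_)
      rw [Finset.sum_add_distrib, Finset.mul_sum]
      simp
    unfold one
    refine (Finset.sum_le_sum fun s _ => hs s).trans (le_of_eq ?_)
    unfold PW.sq kin PW.sq
    rw [Finset.sum_add_distrib, ← Finset.mul_sum, ← Finset.mul_sum]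
    congr 2
    rw [Finset.sum_comm]
    refine Finset.sum_congr rfl fun k _ => ?_
    rw [Finset.sum_comm]
  have h2 : one (near1 X d) u ≤ ∑ j, one (fun y => 1 / nr (y - X j)) u := by
    unfold one
    rw [Finset.sum_comm]
    refine Finset.sum_le_sum fun s _ => ?_
    rw [← integral_finsetSum _ fun j _ => hi j s]
    refine integral_mono_of_nonneg (ae_of_all _ fun x => ?_)
      (integrable_finsetSum _ fun j _ => hi j s) (ae_of_all _ fun x => ?_)
    · refine mul_nonneg (Finset.sum_nonneg fun k _ => ?_) (sq_nonneg _)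
      unfold near1
      refine Finset.sum_nonneg fun j _ => ?_
      split_ifs
      · exact div_nonneg zero_le_one (INL_nr0 _)
      · exact le_rfl
    · simp only
      rw [← Finset.sum_mul]
      refine mul_le_mul_of_nonneg_right ?_ (sq_nonneg _)
      rw [Finset.sum_comm]
      refine Finset.sum_le_sum fun k _ => ?_
      unfold near1
      refine Finset.sum_le_sum fun j _ => ?_
      split_ifs
      · exact le_rfl
      · exact div_nonneg zero_le_one (INL_nr0 _)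
  refine h2.trans ((Finset.sum_le_sum fun j _ => h1 j).trans (le_of_eq ?_))
  simp
  ring

theorem MIZ (h1 : ST_DBI) (h2 : ST_V2I) (h3 : ST_LOCY) (hCS : ST_CSQM) (hSTB : ST_STB)
    (hAID : ST_AIDM) (hCID : ST_CIDM) (hKIN : ST_KINM) (hERR : ST_ERR) (_ : ST_QHM)
    (hI : ST_INTM) (hAED : ST_AED) (hMOR : ST_MORM) (hPAN : ST_PAN) (_ : ST_IBP) : ST_MIZ := by
  intro d hd hd1
  obtain ⟨CV, hCV, HV2⟩ := h2 d hd hd1
  obtain ⟨C0, CL, hC0, hCL, HL⟩ := h3 d hd hd1
  obtain ⟨C1, hC1, H1⟩ := hKIN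
  obtain ⟨Ca, hCa⟩ : ∃ Ca : ℝ, Ca = 3 * C1 + CV * CL + CL := ⟨_, rfl⟩
  have hCa0 : 0 < Ca := by rw [hCa]; positivity
  refine ⟨Ca + 2, by positivity, ?_⟩
  intro z K R M E n NN X Z g S hDat hLow hK hR hRd hg hin hfar hSc hoff
  have hZ : ∀ j, 0 ≤ Z j := hDat.nuc.1
  have hz1 := hDat.z1
  have hXinj : Function.Injective X := by
    intro i j hij
    by_contra hne
    have h := hDat.sep i j hne
    rw [hij, sub_self] at h
    have h0 : nr (0 : R3) = 0 := by simp [nr]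
    rw [h0] at h
    linarith
  obtain ⟨zz, hz⟩ : ∃ zz : ℝ, zz = ∑ j, Z j := ⟨_, rfl⟩
  have hz0 : 0 ≤ zz := by rw [hz]; exact Finset.sum_nonneg fun j _ => hZ j
  choose Cm hCm hE using fun m => hERR n (g m) (hg m).sm (hg m).cs
  obtain ⟨C2, hC2, hCle⟩ : ∃ C2 : ℝ, 0 < C2 ∧ ∀ m, Cm m ≤ C2 := by
    refine ⟨Cm 0 + Cm 1 + Cm 2, by linarith [hCm 0, hCm 1, hCm 2], fun m => ?_⟩
    fin_cases m <;> simp <;> linarith [hCm 0, hCm 1, hCm 2]
  obtain ⟨M0, hM0, hMM⟩ : ∃ M0 : ℝ, 0 ≤ M0 ∧ M ≤ M0 := ⟨|M|, abs_nonneg _, le_abs_self _⟩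
  obtain ⟨D, hDdef⟩ : ∃ D, D = Real.sqrt (C2 * (2 * M0 + 2)) := ⟨_, rfl⟩
  have hD : 0 ≤ D := by rw [hDdef]; exact Real.sqrt_nonneg _
  obtain ⟨Bm, hBmdef⟩ : ∃ Bm : ℝ, Bm = zz * (4 * zz * M0 + 8 * Real.sqrt (n * M0)) := ⟨_, rfl⟩
  have hBm : 0 ≤ Bm := by rw [hBmdef]; positivity
  have hn0 : (0:ℝ) ≤ n := Nat.cast_nonneg _
  have hN0 : (0:ℝ) ≤ NN := Nat.cast_nonneg _
  obtain ⟨Y0, hY0⟩ : ∃ Y0 : ℝ, Y0 = 2 * M0 + |nucR X Z| * 2 +
    (Ca + 2) * (z ^ 2 * NN + z * (NN * (n * 2 + 4 * M0))) := ⟨_, rfl⟩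
  have hY00 : 0 ≤ Y0 := by rw [hY0]; positivity
  refine ⟨3 * K ^ 2 * (2 * n) * (0 + 3 * D) +
    D * (Ca * K ^ 2 * ((M0 + Y0) / R ^ 2 + 2 * n / R ^ 4) + 2 * (Bm / 4) +
      (0 + 3 * D)) + 4 * D * (C2 * (M0 + 2)) + 1, by positivity, ?_⟩
  intro u hu hA hsq hkin hpair hone hdd hres B1 s0 hB1 hs0 hmor m
  have hh := INLJ_h2 hI X Z E hu
  have ρ0 : 0 ≤ Real.sqrt (resM X Z E u) := Real.sqrt_nonneg _
  have ρ1 : Real.sqrt (resM X Z E u) ≤ 1 := Real.sqrt_le_one.2 hres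
  have hcau : ∀ f : Wf n, Sm f → PW.sq f ≤ C2 * (2 * M0 + 2) →
      |∑ s, ∫ x, f s x * (hmM X Z (u s) x - E * u s x)| ≤ D * Real.sqrt (resM X Z E u) := by
    intro f hf hs
    refine (INL_cauchy hf hh).trans ?_
    rw [hDdef]
    exact mul_le_mul (Real.sqrt_le_sqrt hs) le_rfl (Real.sqrt_nonneg _) (Real.sqrt_nonneg _)
  have sq0 : ∀ v : Wf n, 0 ≤ PW.sq v := fun v =>
    Finset.sum_nonneg fun s _ => integral_nonneg fun x => sq_nonneg _
  have kin0 : 0 ≤ kin u := Finset.sum_nonneg fun k _ => Finset.sum_nonneg fun i _ => sq0 _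
  have dd0 : 0 ≤ dd u := Finset.sum_nonneg fun k _ => Finset.sum_nonneg fun i _ =>
    Finset.sum_nonneg fun l _ => Finset.sum_nonneg fun m _ => sq0 _
  have rep0 : ∀ x : Cf n, 0 ≤ rep x := fun x => Finset.sum_nonneg fun k _ =>
    Finset.sum_nonneg fun l _ => by
      split_ifs
      · exact div_nonneg zero_le_one (INL_nr0 _)
      · exact le_rfl
  have pair0 : 0 ≤ pair u := Finset.sum_nonneg fun s _ => integral_nonneg fun x =>
    mul_nonneg (rep0 x) (sq_nonneg _)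
  have on0 : 0 ≤ one (pot X Z) u := INL_one0 (fun y => INLJ_pot0 X Z hZ y) u
  have ν0 : 0 ≤ one (ind S) u := INL_one0 (fun y => ((INLJ_ind S hSc).2 y).1) u
  have ν1 : one (ind S) u ≤ 2 * n := by
    refine (INLJ_one1 S hSc hu).trans ?_
    nlinarith
  have near0 : 0 ≤ one (near1 X d) u := by
    refine INL_one0 (fun y => ?_) u
    unfold near1
    refine Finset.sum_nonneg fun j _ => ?_
    split_ifs
    · exact div_nonneg zero_le_one (INL_nr0 _)
    · exact le_rfl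
  have near1' : one (near1 X d) u ≤ NN * (n * 2 + 4 * M0) := by
    refine (miz_near hI n NN X d u hu).trans ?_
    have k1 := hkin.trans hMM
    gcongr
  have su0 := sq0 u
  have SF : ∀ m, Sm (fun s => Fg (g m) (u s)) := fun m => (hSTB n (g m) u (hg m).sm hu).1
  have SP : ∀ m, Sm (fun s => Pg (g m) (u s)) := fun m => (hSTB n (g m) u (hg m).sm hu).2.1
  have AF : ∀ m, Anti (fun s => Fg (g m) (u s)) := fun m =>
    ((hSTB n (g m) u (hg m).sm hu).2.2 hA).1
  have AP : ∀ m, Anti (fun s => Pg (g m) (u s)) := fun m =>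
    ((hSTB n (g m) u (hg m).sm hu).2.2 hA).2
  have SFF : ∀ m, Sm (fun s => Fg (g m) (Fg (g m) (u s))) := fun m =>
    (hSTB n (g m) (fun s => Fg (g m) (u s)) (hg m).sm (SF m)).1
  have SFP : ∀ m, Sm (fun s => Fg (g m) (Pg (g m) (u s))) := fun m =>
    (hSTB n (g m) (fun s => Pg (g m) (u s)) (hg m).sm (SP m)).1
  have SPP : ∀ m, Sm (fun s => Pg (g m) (Pg (g m) (u s))) := fun m =>
    (hSTB n (g m) (fun s => Pg (g m) (u s)) (hg m).sm (SP m)).2.1
  have bd : ∀ (m : Fin 3) (y : ℝ), 0 ≤ y → y ≤ 2 * M0 + 2 → Cm m * y ≤ C2 * (2 * M0 + 2) :=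
    fun m y hy0 hy => mul_le_mul (hCle m) hy hy0 hC2.le
  have a1 : ∀ m, |∑ s, ∫ x, Fg (g m) (Fg (g m) (u s)) x * (hmM X Z (u s) x - E * u s x)| ≤
      D * Real.sqrt (resM X Z E u) := fun m =>
    hcau _ (SFF m) ((hE m u hu).1.trans (bd m _ su0 (by linarith)))
  have a2 : ∀ m, |∑ s, ∫ x, Fg (g m) (Pg (g m) (u s)) x * (hmM X Z (u s) x - E * u s x)| ≤
      D * Real.sqrt (resM X Z E u) := fun m =>
    hcau _ (SFP m) ((hE m u hu).2.2.1.trans (bd m _ (by linarith) (by linarith)))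
  have a3 : ∀ m, |∑ s, ∫ x, Pg (g m) (Pg (g m) (u s)) x * (hmM X Z (u s) x - E * u s x)| ≤
      D * Real.sqrt (resM X Z E u) := fun m =>
    hcau _ (SPP m) ((hE m u hu).2.2.2.trans (bd m _ (by linarith) (by linarith)))
  have hP0 : PW.sq (fun s => Pg (g m) (u s)) ≤ C2 * (M0 + 2) :=
    (hE m u hu).2.1.trans (mul_le_mul (hCle m) (by linarith) (by linarith) hC2.le)
  have b0 : ∀ m, 0 ≤ QM X Z (fun s => Pg (g m) (u s)) - E * PW.sq (fun s => Pg (g m) (u s)) :=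
    fun m => sub_nonneg.2 (hLow _ (SP m) (AP m))
  obtain ⟨B', hB'def⟩ : ∃ B' : ℝ, B' = min B1 Bm := ⟨_, rfl⟩
  have hB'1 : B' ≤ B1 := by rw [hB'def]; exact min_le_left _ _
  have hB'm : B' ≤ Bm := by rw [hB'def]; exact min_le_right _ _
  have hB'0 : 0 ≤ B' := by rw [hB'def]; exact le_min hB1 hBm
  have hone' : ∀ (j : Fin NN) (s : ℝ), 0 < s → one (fun y => mor s (y - X j)) u ≤
      4 * zz * M0 + 8 * Real.sqrt (n * M0) := by
    intro j s hs
    have k1 := hMOR n NN X Z E s (X j) u hZ hs hu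
    rw [← hz] at k1
    have k2 : Real.sqrt (n * kin u * resM X Z E u) ≤ Real.sqrt (n * M0) := by
      have hkk : kin u ≤ M0 := hkin.trans hMM
      have hnk : n * kin u ≤ n * M0 := mul_le_mul_of_nonneg_left hkk hn0
      have hnk0 : 0 ≤ n * kin u := mul_nonneg hn0 kin0
      apply Real.sqrt_le_sqrt
      calc n * kin u * resM X Z E u ≤ n * kin u * 1 := mul_le_mul_of_nonneg_left hres hnk0
        _ ≤ n * M0 := by rw [mul_one]; exact hnk
    have k3 : 4 * zz * kin u ≤ 4 * zz * M0 :=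
      mul_le_mul_of_nonneg_left (hkin.trans hMM) (by positivity)
    linarith
  have hmor' : ∀ s : ℝ, 0 < s → s ≤ s0 →
      ∑ j, Z j * one (fun y => mor s (y - X j)) u ≤ B' := by
    intro s hs hs'
    rw [hB'def]
    refine le_min (hmor s hs hs') ?_
    rw [hBmdef, hz, Finset.sum_mul, ← hz]
    exact Finset.sum_le_sum fun j _ => mul_le_mul_of_nonneg_left (hone' j s hs) (hZ j)
  -- the quantity `YY`
  obtain ⟨hLx, hLu⟩ := HL z n NN X Z hDat
  obtain ⟨hYL0, hYi, hYL⟩ := hLu u hu hsq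
  have hYmono : YY CL d z X Z u ≤ YY (Ca + 2) d z X Z u := by
    unfold YY
    have q1 : CL ≤ Ca + 2 := by
      rw [hCa]
      have : 0 < CV * CL := by positivity
      linarith
    have q2 : 0 ≤ z ^ 2 * NN + z * one (near1 X d) u := by positivity
    have := mul_le_mul_of_nonneg_right q1 q2
    linarith
  obtain ⟨Y, hYdef⟩ : ∃ Y : ℝ, Y = YY (Ca + 2) d z X Z u := ⟨_, rfl⟩
  have hYn : 0 ≤ Y := by rw [hYdef]; exact hYL0.trans hYmono
  have hYb : Y ≤ Y0 := by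
    rw [hYdef, hY0]
    unfold YY QM
    have q1 : nucR X Z * PW.sq u ≤ |nucR X Z| * 2 :=
      (mul_le_mul_of_nonneg_right (le_abs_self _) su0).trans
        (mul_le_mul_of_nonneg_left hsq (abs_nonneg _))
    have q2 : z * one (near1 X d) u ≤ z * (NN * (n * 2 + 4 * M0)) :=
      mul_le_mul_of_nonneg_left near1' (by linarith)
    have q3 := mul_le_mul_of_nonneg_left q2 (by positivity : (0:ℝ) ≤ Ca + 2)
    have q4 := hpair.trans hMM
    nlinarith
  -- the double commutator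
  obtain ⟨hDi, hDB⟩ := h1 n NN X Z g R B' s0 u hZ hXinj (fun m => (hg m).sm)
    (fun m => (hg m).cs) hR hs0 hin hu hmor'
  have hV : ∑ s, ∫ x, (∑ m, D2 X Z (g m) x) * u s x ^ 2 ≤
      CV * K ^ 2 / R ^ 2 * (CL * YY CL d z X Z u) := by
    have v1 : ∀ s, ∫ x, (∑ m, D2 X Z (g m) x) * u s x ^ 2 ≤ CV * K ^ 2 / R ^ 2 *
        (C0 * ∫ x, (Vc X Z x + C0 * (z ^ 2 * NN + z * ∑ k, near1 X d (x k))) * u s x ^ 2) := by
      intro s
      rw [← integral_const_mul, ← integral_const_mul]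
      refine integral_mono_ae (hDi s) (((hYi s).const_mul _).const_mul _) ?_
      filter_upwards [hAED n NN X] with x hx
      have w1 := HV2 z K R n NN X Z g x hDat hK hR hRd hg hin hfar hx
      have w2 := (hLx x hx).2.2
      have w3 : ∑ m, D2 X Z (g m) x ≤ CV * K ^ 2 / R ^ 2 *
          (C0 * (Vc X Z x + C0 * (z ^ 2 * NN + z * ∑ k, near1 X d (x k)))) :=
        w1.trans (mul_le_mul_of_nonneg_left w2 (by positivity))
      have w4 := mul_le_mul_of_nonneg_right w3 (sq_nonneg (u s x))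
      refine w4.trans (le_of_eq ?_)
      ring
    refine (Finset.sum_le_sum fun s _ => v1 s).trans ?_
    rw [← Finset.mul_sum, ← Finset.mul_sum]
    exact mul_le_mul_of_nonneg_left hYL (by positivity)
  have hV' : ∑ s, ∫ x, (∑ m, D2 X Z (g m) x) * u s x ^ 2 ≤
      CV * CL * K ^ 2 * (Y / R ^ 2) := by
    refine hV.trans ?_
    have w1 : CL * YY CL d z X Z u ≤ CL * Y := by
      rw [hYdef]; exact mul_le_mul_of_nonneg_left hYmono hCL.le
    refine (mul_le_mul_of_nonneg_left w1 (by positivity)).trans (le_of_eq ?_)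
    ring
  have id : ∀ m, QM X Z (fun s => Pg (g m) (u s)) - E * PW.sq (fun s => Pg (g m) (u s)) =
      -(∑ s, ∫ x, Pg (g m) (Pg (g m) (u s)) x * (hmM X Z (u s) x - E * u s x)) +
      (kin (fun s => Pg (g m) (u s)) -
        (∑ s, ∫ x, Pg (g m) (Pg (g m) (u s)) x * ∑ k, ∑ i, dv k i (dv k i (u s)) x)) +
      ∑ s, ∫ x, (rep x - ∑ k, pot X Z (x k)) *
        (Pg (g m) (u s) x ^ 2 + Pg (g m) (Pg (g m) (u s)) x * u s x) :=
    fun m => miz_id hPAN hSTB hI n NN X Z E (g m) (hg m).sm u hu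
  have hkinm : ∀ m, kin (fun s => Pg (g m) (u s)) -
      (∑ s, ∫ x, Pg (g m) (Pg (g m) (u s)) x * ∑ k, ∑ i, dv k i (dv k i (u s)) x) ≤
      C1 * K ^ 2 * (kin u / R ^ 2 + one (ind S) u / R ^ 4) :=
    fun m => H1 n (g m) K R S u (hg m) hR hSc (hoff m) hu
  have hsing := Finset.single_le_sum (f := fun m => QM X Z (fun s => Pg (g m) (u s)) -
    E * PW.sq (fun s => Pg (g m) (u s))) (fun m _ => b0 m) (Finset.mem_univ m)
  have herr : -(∑ m, ∑ s, ∫ x, Pg (g m) (Pg (g m) (u s)) x * (hmM X Z (u s) x - E * u s x)) ≤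
      3 * (D * Real.sqrt (resM X Z E u)) := by
    rw [← Finset.sum_neg_distrib]
    calc ∑ m, -(∑ s, ∫ x, Pg (g m) (Pg (g m) (u s)) x * (hmM X Z (u s) x - E * u s x)) ≤
        ∑ _m : Fin 3, D * Real.sqrt (resM X Z E u) := Finset.sum_le_sum fun m _ => by
          have := (abs_le.1 (a3 m)).1
          linarith
      _ = _ := by simp
  have hk3 : ∑ m : Fin 3, (kin (fun s => Pg (g m) (u s)) -
      (∑ s, ∫ x, Pg (g m) (Pg (g m) (u s)) x * ∑ k, ∑ i, dv k i (dv k i (u s)) x)) ≤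
      3 * (C1 * K ^ 2 * (kin u / R ^ 2 + one (ind S) u / R ^ 4)) := by
    refine (Finset.sum_le_sum fun m _ => hkinm m).trans ?_
    simp
  have hbin : ∑ m, (QM X Z (fun s => Pg (g m) (u s)) - E * PW.sq (fun s => Pg (g m) (u s))) ≤
      3 * (D * Real.sqrt (resM X Z E u)) +
      3 * (C1 * K ^ 2 * (kin u / R ^ 2 + one (ind S) u / R ^ 4)) +
      (1 / 2 * (CV * CL * K ^ 2 * (Y / R ^ 2)) + B' / 2) := by
    rw [Finset.sum_congr rfl fun m _ => id m, Finset.sum_add_distrib, Finset.sum_add_distrib,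
      Finset.sum_neg_distrib]
    linarith
  have hS0 : 0 ≤ (kin u + Y) / R ^ 2 + one (ind S) u / R ^ 4 := by positivity
  have hS1 : (kin u + Y) / R ^ 2 + one (ind S) u / R ^ 4 ≤
      (M0 + Y0) / R ^ 2 + 2 * n / R ^ 4 := by
    have k1 := hkin.trans hMM
    gcongr
  have hmain : 3 * (C1 * K ^ 2 * (kin u / R ^ 2 + one (ind S) u / R ^ 4)) +
      1 / 2 * (CV * CL * K ^ 2 * (Y / R ^ 2)) ≤
      Ca * K ^ 2 * ((kin u + Y) / R ^ 2 + one (ind S) u / R ^ 4) := by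
    have q1 : 0 ≤ K ^ 2 * (kin u / R ^ 2) := by positivity
    have q2 : 0 ≤ K ^ 2 * (Y / R ^ 2) := by positivity
    have q4 : 0 ≤ K ^ 2 * (one (ind S) u / R ^ 4) := by positivity
    have e : Ca * K ^ 2 * ((kin u + Y) / R ^ 2 + one (ind S) u / R ^ 4) -
        (3 * (C1 * K ^ 2 * (kin u / R ^ 2 + one (ind S) u / R ^ 4)) +
        1 / 2 * (CV * CL * K ^ 2 * (Y / R ^ 2))) =
        (CV * CL + CL) * (K ^ 2 * (kin u / R ^ 2)) +
        (3 * C1 + 1 / 2 * (CV * CL) + CL) * (K ^ 2 * (Y / R ^ 2)) +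
        (CV * CL + CL) * (K ^ 2 * (one (ind S) u / R ^ 4)) := by
      rw [hCa]
      ring
    have : 0 ≤ (CV * CL + CL) * (K ^ 2 * (kin u / R ^ 2)) +
        (3 * C1 + 1 / 2 * (CV * CL) + CL) * (K ^ 2 * (Y / R ^ 2)) +
        (CV * CL + CL) * (K ^ 2 * (one (ind S) u / R ^ 4)) := by positivity
    linarith
  have hcs := hCS n NN X Z E (fun s => Fg (g m) (u s)) (fun s => Pg (g m) (u s)) hLow (SF m)
    (AF m) (SP m) (AP m)
  rw [hCID n NN X Z E (g m) u (hg m).sm hu, hAID n NN X Z E (g m) u (hg m).sm hu] at hcs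
  have hfin := INL_fin hcs (a1 m) (a2 m)
    ⟨INL_one0 (fun y => Finset.sum_nonneg fun i _ => sq_nonneg _) u,
      INLJ_grd (hg m) S hSc (hoff m) hu⟩
    (C := Ca) (S := (kin u + Y) / R ^ 2 + one (ind S) u / R ^ 4)
    (X := B' / 4) (q := 0)
    ⟨b0 m, by
      have := hsing.trans hbin
      linarith [this, hmain]⟩ ⟨ρ0, ρ1⟩ ⟨sq0 _, hP0⟩ ⟨ν0, ν1⟩ ⟨hS0, hS1⟩
    ⟨by positivity, by linarith⟩ hK hCa0.le hD le_rfl (X0 := Bm / 4)
  refine hfin.trans ?_
  rw [← hYdef]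
  have hKK : 0 ≤ (Ca + 2) * K ^ 4 := by positivity
  have g1 : (Ca + 2) * K ^ 4 * (one (ind S) u *
      ((kin u + Y) / R ^ 2 + one (ind S) u / R ^ 4 + B' / 4)) ≤
      (Ca + 2) * K ^ 4 * (one (ind S) u *
      ((kin u + Y) / R ^ 2 + one (ind S) u / R ^ 4 + B1)) := by
    apply mul_le_mul_of_nonneg_left _ hKK
    apply mul_le_mul_of_nonneg_left _ ν0
    linarith
  nlinarith [g1, ρ0]

end Pool.Agent.Helper60.HV
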